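import Mathlib
import Pool.Agent.L5helper2.GR.MAP

/-! The product of `1 - (p - 1) / r` over the primes `r = 1 mod p` in `(a, b]`. -/

set_option autoImplicit false

namespace Pool.Agent.L5helper32.GP

open Finset Filter
open scoped Topology
open Pool.Agent.L5helper2.GR (th th_succ th_le th_lower fw fw_nonneg fw_anti abel fw_sum)

lemma d1_th_le_AA (p : ℕ) (hp : p.Prime) (n : ℕ) : th p n ≤ Pool.Agent.Cov.AA p n := by
  unfold th Pool.Agent.Cov.AA
  rw [Finset.sum_filter]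
  apply Finset.sum_le_sum
  intro k _
  by_cases hk : k.Prime ∧ k % p = 1
  · rw [if_pos hk, Pool.Agent.Cov.R_prime hp hk.1 hk.2]
  · rw [if_neg hk]
    exact ArithmeticFunction.vonMangoldt.residueClass_nonneg (1 : ZMod p) k

lemma d1_th_upper (p : ℕ) (hp : p.Prime) {ε : ℝ} (hε : 0 < ε) : ∃ n0 : ℕ, ∀ n : ℕ, n0 ≤ n →
    th p n ≤ (((p : ℝ) - 1)⁻¹ + ε) * n := by
  have h1 := Pool.Agent.Cov.AA_tendsto hp
  have h4 := h1.eventually_lt_const (show ((p : ℝ) - 1)⁻¹ < ((p : ℝ) - 1)⁻¹ + ε by linarith)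
  obtain ⟨n0, hn0⟩ := eventually_atTop.1 h4
  refine ⟨max n0 1, fun n hn => ?_⟩
  have h5 := hn0 n ((le_max_left _ _).trans hn)
  have hn1 : (0 : ℝ) < n := by exact_mod_cast (lt_of_lt_of_le zero_lt_one ((le_max_right _ _).trans hn))
  rw [div_lt_iff₀ hn1] at h5
  exact (d1_th_le_AA p hp n).trans h5.le

/-- discrete partial summation, upper bound -/
lemma d1_abel (p z : ℕ) (hz : 2 ≤ z) (c : ℝ) (hc : ∀ n, z ≤ n → th p n ≤ c * n) (y : ℕ) (hy : z ≤ y) :
    ∑ l ∈ (Ioc z y).filter (fun l => l.Prime ∧ l % p = 1), (1 : ℝ) / l ≤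
      c * ∑ n ∈ Ioc z y, fw n + (th p y - c * y) * fw y - (th p z - c * z) * fw z := by
  induction y, hy using Nat.le_induction with
  | base => simp
  | succ y hy ih =>
    rw [Finset.sum_filter] at ih ⊢
    rw [Finset.sum_Ioc_succ_top (by omega), Finset.sum_Ioc_succ_top (by omega), th_succ]
    have hy2 : 2 ≤ y := hz.trans hy
    have hlog : 0 < Real.log ((y + 1 : ℕ) : ℝ) := Real.log_pos (by exact_mod_cast (by omega : 1 < y + 1))
    have hy0 : (0 : ℝ) < ((y + 1 : ℕ) : ℝ) := by positivity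
    have h1 : (0 : ℝ) ≤ (c * y - th p y) * (fw y - fw (y + 1)) :=
      mul_nonneg (by linarith [hc y hy]) (by linarith [fw_anti hy2])
    have h3 : ((y + 1 : ℕ) : ℝ) = y + 1 := by push_cast; ring
    by_cases h : (y + 1).Prime ∧ (y + 1) % p = 1
    · rw [if_pos h, if_pos h]
      have h2 : Real.log ((y + 1 : ℕ) : ℝ) * fw (y + 1) = 1 / ((y + 1 : ℕ) : ℝ) := by
        unfold fw
        field_simp
      have h4 : c * (∑ n ∈ Ioc z y, fw n + fw (y + 1)) +
          (th p y + Real.log ((y + 1 : ℕ) : ℝ) - c * ((y + 1 : ℕ) : ℝ)) * fw (y + 1) -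
          (th p z - c * z) * fw z = (c * ∑ n ∈ Ioc z y, fw n + (th p y - c * y) * fw y -
          (th p z - c * z) * fw z) + (c * y - th p y) * (fw y - fw (y + 1)) +
          Real.log ((y + 1 : ℕ) : ℝ) * fw (y + 1) := by
        rw [h3]; ring
      rw [h4, h2]
      linarith
    · rw [if_neg h, if_neg h]
      have h4 : c * (∑ n ∈ Ioc z y, fw n + fw (y + 1)) +
          (th p y + 0 - c * ((y + 1 : ℕ) : ℝ)) * fw (y + 1) -
          (th p z - c * z) * fw z = (c * ∑ n ∈ Ioc z y, fw n + (th p y - c * y) * fw y -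
          (th p z - c * z) * fw z) + (c * y - th p y) * (fw y - fw (y + 1)) := by
        rw [h3]; ring
      rw [h4]
      linarith

/-- one step of `log log`, lower bound -/
lemma d1_ll_step {y : ℕ} (hy : 2 ≤ y) :
    fw (y + 1) ≤ Real.log (Real.log ((y + 1 : ℕ) : ℝ)) - Real.log (Real.log (y : ℝ)) := by
  have hy0 : (0 : ℝ) < y := by positivity
  have hy1 : (0 : ℝ) < ((y + 1 : ℕ) : ℝ) := by positivity
  have hl0 : 0 < Real.log (y : ℝ) := Real.log_pos (by exact_mod_cast (by omega : 1 < y))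
  have hl1 : 0 < Real.log ((y + 1 : ℕ) : ℝ) := Real.log_pos (by exact_mod_cast (by omega : 1 < y + 1))
  have h1 : 1 / ((y + 1 : ℕ) : ℝ) ≤ Real.log ((y + 1 : ℕ) : ℝ) - Real.log y := by
    have h := Real.one_sub_inv_le_log_of_pos (x := ((y + 1 : ℕ) : ℝ) / y) (by positivity)
    rw [Real.log_div hy1.ne' hy0.ne', inv_div] at h
    have e : 1 - (y : ℝ) / ((y + 1 : ℕ) : ℝ) = 1 / ((y + 1 : ℕ) : ℝ) := by
      field_simp
      push_cast
      ring
    rw [e] at h
    exact h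
  have h2 := Real.one_sub_inv_le_log_of_pos (x := Real.log ((y + 1 : ℕ) : ℝ) / Real.log y) (by positivity)
  rw [Real.log_div hl1.ne' hl0.ne', inv_div] at h2
  refine le_trans ?_ h2
  rw [one_sub_div hl1.ne']
  unfold fw
  rw [← div_div]
  exact div_le_div_of_nonneg_right h1 hl1.le

/-- one step of `log log`, upper bound -/
lemma d1_ll_step' {y : ℕ} (hy : 2 ≤ y) :
    Real.log (Real.log ((y + 1 : ℕ) : ℝ)) - Real.log (Real.log (y : ℝ)) ≤ fw y := by
  have hy0 : (0 : ℝ) < y := by positivity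
  have hy1 : (0 : ℝ) < ((y + 1 : ℕ) : ℝ) := by positivity
  have hl0 : 0 < Real.log (y : ℝ) := Real.log_pos (by exact_mod_cast (by omega : 1 < y))
  have hl1 : 0 < Real.log ((y + 1 : ℕ) : ℝ) := Real.log_pos (by exact_mod_cast (by omega : 1 < y + 1))
  have h1 : Real.log ((y + 1 : ℕ) : ℝ) - Real.log y ≤ 1 / (y : ℝ) := by
    rw [← Real.log_div hy1.ne' hy0.ne']
    refine (Real.log_le_sub_one_of_pos (by positivity)).trans (le_of_eq ?_)
    field_simp
    push_cast
    ring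
  rw [← Real.log_div hl1.ne' hl0.ne']
  refine (Real.log_le_sub_one_of_pos (by positivity)).trans ?_
  rw [div_sub_one hl0.ne']
  unfold fw
  rw [← div_div]
  exact div_le_div_of_nonneg_right h1 hl0.le

lemma d1_fw_upper {z y : ℕ} (hz : 2 ≤ z) (hy : z ≤ y) :
    ∑ n ∈ Ioc z y, fw n ≤ Real.log (Real.log (y : ℝ)) - Real.log (Real.log (z : ℝ)) := by
  induction y, hy using Nat.le_induction with
  | base => simp
  | succ y hy ih =>
    rw [Finset.sum_Ioc_succ_top (by omega)]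
    have := d1_ll_step (hz.trans hy)
    linarith

lemma d1_fw_lower {z y : ℕ} (hz : 2 ≤ z) (hy : z ≤ y) :
    Real.log (Real.log (y : ℝ)) - Real.log (Real.log (z : ℝ)) - fw z ≤ ∑ n ∈ Ioc z y, fw n := by
  have h1 := fw_sum hz hy
  have h2 := d1_ll_step' hz
  have hl0 : 0 < Real.log (y : ℝ) := Real.log_pos (by exact_mod_cast (by omega : 1 < y))
  have h3 : Real.log (Real.log (y : ℝ)) ≤ Real.log (Real.log ((y + 1 : ℕ) : ℝ)) := by
    apply Real.log_le_log hl0
    apply Real.log_le_log (by exact_mod_cast (by omega : 0 < y))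
    push_cast
    linarith
  linarith

/-- the sum of `(p - 1) / l` over the primes `l = 1 mod p` in `(a, b]`, `b ≤ a ^ p` -/
lemma d1_sum {p : ℕ} (hp : p.Prime) {ε : ℝ} (hε : 0 < ε) :
    ∃ a₀ : ℕ, 2 ≤ a₀ ∧ ∀ a ≥ a₀, ∀ b : ℕ, a ≤ b → b ≤ a ^ p →
      |∑ l ∈ (Ioc a b).filter (fun l => l.Prime ∧ l % p = 1), ((p : ℝ) - 1) / l
        - (Real.log (Real.log b) - Real.log (Real.log a))| ≤ ε := by
  have hp1 : (0 : ℝ) < (p : ℝ) - 1 := by
    have : (1 : ℝ) < p := by exact_mod_cast hp.one_lt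
    linarith
  have hk0 : (0 : ℝ) ≤ Real.log p := Real.log_natCast_nonneg p
  set η : ℝ := min (ε / (4 * (Real.log p + 1) * ((p : ℝ) - 1))) (((p : ℝ) - 1)⁻¹) with hη
  have hη0 : 0 < η := by
    rw [hη]
    apply lt_min
    · positivity
    · positivity
  obtain ⟨n0, hn0⟩ := th_lower p hp hη0
  obtain ⟨n1, hn1⟩ := d1_th_upper p hp hη0
  have hlog : Tendsto (fun z : ℕ => Real.log (z : ℝ)) atTop atTop :=
    Real.tendsto_log_atTop.comp tendsto_natCast_atTop_atTop
  obtain ⟨n2, hn2⟩ := eventually_atTop.1 (hlog.eventually_ge_atTop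
    (4 * (((p : ℝ) - 1) * Real.log 4 + 3) / ε))
  refine ⟨max (max n0 n1) (max n2 2), (le_max_right n2 2).trans (le_max_right _ _),
    fun z hz y hy hyp => ?_⟩
  have hz0' : n0 ≤ z := (le_max_left _ _).trans ((le_max_left _ _).trans hz)
  have hz1' : n1 ≤ z := (le_max_right _ _).trans ((le_max_left _ _).trans hz)
  have hz2' : n2 ≤ z := (le_max_left _ _).trans ((le_max_right _ _).trans hz)
  have hz2 : 2 ≤ z := (le_max_right _ _).trans ((le_max_right _ _).trans hz)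
  have hz0 : (0 : ℝ) < z := by positivity
  have hy0 : (0 : ℝ) < y := by exact_mod_cast (by omega : 0 < y)
  have hl0 : 0 < Real.log (z : ℝ) := Real.log_pos (by exact_mod_cast (by omega : 1 < z))
  have hly : 0 < Real.log (y : ℝ) := Real.log_pos (by exact_mod_cast (by omega : 1 < y))
  have h2 := hn2 z hz2'
  rw [div_le_iff₀ hε] at h2
  set LL := Real.log (Real.log (y : ℝ)) - Real.log (Real.log (z : ℝ)) with hLL
  have hLL0 : 0 ≤ LL := by
    rw [hLL, sub_nonneg]
    apply Real.log_le_log hl0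
    apply Real.log_le_log hz0
    exact_mod_cast hy
  have hLLp : LL ≤ Real.log p := by
    rw [hLL, sub_le_iff_le_add, ← Real.log_mul (by exact_mod_cast hp.ne_zero) hl0.ne']
    apply Real.log_le_log hly
    rw [← Real.log_pow]
    apply Real.log_le_log hy0
    exact_mod_cast hyp
  have hfz : fw z * z = 1 / Real.log z := by
    unfold fw
    field_simp
  have hfz1 : fw z ≤ 1 / Real.log z := by
    rw [← hfz]
    have hz1 : (1 : ℝ) ≤ z := by exact_mod_cast (by omega : 1 ≤ z)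
    have := fw_nonneg z
    nlinarith
  have hinv : 0 < 1 / Real.log (z : ℝ) := by positivity
  have hη1 : ((p : ℝ) - 1) * η ≤ 1 := by
    have := min_le_right (ε / (4 * (Real.log p + 1) * ((p : ℝ) - 1))) (((p : ℝ) - 1)⁻¹)
    rw [← hη] at this
    calc ((p : ℝ) - 1) * η ≤ ((p : ℝ) - 1) * ((p : ℝ) - 1)⁻¹ := mul_le_mul_of_nonneg_left this hp1.le
      _ = 1 := by field_simp
  have hη2 : ((p : ℝ) - 1) * η * (Real.log p + 1) ≤ ε / 4 := by
    have h17 := min_le_left (ε / (4 * (Real.log p + 1) * ((p : ℝ) - 1))) (((p : ℝ) - 1)⁻¹)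
    rw [← hη, le_div_iff₀ (by positivity)] at h17
    nlinarith
  have hη3 : 0 ≤ ((p : ℝ) - 1) * η := by positivity
  have hη4 : ((p : ℝ) - 1) * η * LL ≤ ε / 4 := by
    have : ((p : ℝ) - 1) * η * LL ≤ ((p : ℝ) - 1) * η * (Real.log p + 1) :=
      mul_le_mul_of_nonneg_left (by linarith) hη3
    linarith
  have herr : (((p : ℝ) - 1) * Real.log 4 + 3) * (1 / Real.log z) ≤ ε / 4 := by
    rw [mul_one_div, div_le_iff₀ hl0]
    linarith
  have h13 : ∑ l ∈ (Ioc z y).filter (fun l => l.Prime ∧ l % p = 1), ((p : ℝ) - 1) / l =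
      ((p : ℝ) - 1) * ∑ l ∈ (Ioc z y).filter (fun l => l.Prime ∧ l % p = 1), (1 : ℝ) / l := by
    rw [Finset.mul_sum]
    apply Finset.sum_congr rfl
    intro l _
    ring
  rw [h13]
  set U := ∑ l ∈ (Ioc z y).filter (fun l => l.Prime ∧ l % p = 1), (1 : ℝ) / l with hU
  set F := ∑ n ∈ Ioc z y, fw n with hF
  have hFu : F ≤ LL := d1_fw_upper hz2 hy
  have hFl : LL - fw z ≤ F := d1_fw_lower hz2 hy
  have hF0 : 0 ≤ F := Finset.sum_nonneg fun n _ => fw_nonneg n
  have hlog4 : 0 ≤ Real.log 4 := Real.log_nonneg (by norm_num)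
  -- upper bound
  set c : ℝ := ((p : ℝ) - 1)⁻¹ + η with hc
  have hcp : ((p : ℝ) - 1) * c = 1 + ((p : ℝ) - 1) * η := by
    rw [hc]
    field_simp
  have hA := d1_abel p z hz2 c (fun n hn => hn1 n (hz1'.trans hn)) y hy
  have hA1 : (th p y - c * y) * fw y ≤ 0 :=
    mul_nonpos_of_nonpos_of_nonneg (by linarith [hn1 y (hz1'.trans hy)]) (fw_nonneg _)
  have hth0 : 0 ≤ th p z := Finset.sum_nonneg fun l _ => Real.log_natCast_nonneg l
  have hA2 : - ((th p z - c * z) * fw z) ≤ c * (1 / Real.log z) := by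
    have h3 : - ((th p z - c * z) * fw z) = c * (fw z * z) - th p z * fw z := by ring
    rw [h3, hfz]
    have := mul_nonneg hth0 (fw_nonneg z)
    linarith
  have hAU : U ≤ c * F + c * (1 / Real.log z) := by linarith
  have hup : ((p : ℝ) - 1) * U ≤ LL + ε := by
    have h4 := mul_le_mul_of_nonneg_left hAU hp1.le
    have h5 : ((p : ℝ) - 1) * (c * F + c * (1 / Real.log z)) =
        (1 + ((p : ℝ) - 1) * η) * F + (1 + ((p : ℝ) - 1) * η) * (1 / Real.log z) := by
      rw [← hcp]; ring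
    rw [h5] at h4
    have h6 : (1 + ((p : ℝ) - 1) * η) * F ≤ (1 + ((p : ℝ) - 1) * η) * LL :=
      mul_le_mul_of_nonneg_left hFu (by linarith)
    have h7 : (1 + ((p : ℝ) - 1) * η) * (1 / Real.log z) ≤ 2 * (1 / Real.log z) :=
      mul_le_mul_of_nonneg_right (by linarith) hinv.le
    have h8 : 2 * (1 / Real.log z) ≤ (((p : ℝ) - 1) * Real.log 4 + 3) * (1 / Real.log z) :=
      mul_le_mul_of_nonneg_right (by nlinarith) hinv.le
    linarith
  -- lower bound
  set d : ℝ := ((p : ℝ) - 1)⁻¹ - η with hd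
  have hdp : ((p : ℝ) - 1) * d = 1 - ((p : ℝ) - 1) * η := by
    rw [hd]
    field_simp
  have hd0 : 0 ≤ d := by
    have := min_le_right (ε / (4 * (Real.log p + 1) * ((p : ℝ) - 1))) (((p : ℝ) - 1)⁻¹)
    rw [← hη] at this
    linarith
  have hB := abel p z hz2 d (fun n hn => hn0 n (hz0'.trans hn)) y hy
  have hB1 : 0 ≤ (th p y - d * y) * fw y :=
    mul_nonneg (by linarith [hn0 y (hz0'.trans hy)]) (fw_nonneg _)
  have hB2 : (th p z - d * z) * fw z ≤ Real.log 4 * (1 / Real.log z) := by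
    have h8 : (th p z - d * z) * fw z ≤ (Real.log 4 * z) * fw z := by
      apply mul_le_mul_of_nonneg_right _ (fw_nonneg z)
      have := th_le p z
      have : 0 ≤ d * z := by positivity
      linarith
    refine h8.trans (le_of_eq ?_)
    rw [← hfz]
    ring
  have hBU : d * F - Real.log 4 * (1 / Real.log z) ≤ U := by linarith
  have hlow : LL - ε ≤ ((p : ℝ) - 1) * U := by
    have h4 := mul_le_mul_of_nonneg_left hBU hp1.le
    have h5 : ((p : ℝ) - 1) * (d * F - Real.log 4 * (1 / Real.log z)) =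
        (1 - ((p : ℝ) - 1) * η) * F - ((p : ℝ) - 1) * Real.log 4 * (1 / Real.log z) := by
      rw [← hdp]; ring
    rw [h5] at h4
    have h6 : (1 - ((p : ℝ) - 1) * η) * (LL - fw z) ≤ (1 - ((p : ℝ) - 1) * η) * F :=
      mul_le_mul_of_nonneg_left hFl (by linarith)
    have h7 : (1 - ((p : ℝ) - 1) * η) * (LL - fw z) ≥ LL - ((p : ℝ) - 1) * η * LL - 1 / Real.log z := by
      have h9 := mul_nonneg hη3 (fw_nonneg z)
      have h10 : (1 - ((p : ℝ) - 1) * η) * (LL - fw z) =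
          LL - ((p : ℝ) - 1) * η * LL - fw z + ((p : ℝ) - 1) * η * fw z := by ring
      rw [h10]
      linarith
    have h8 : (((p : ℝ) - 1) * Real.log 4 + 3) * (1 / Real.log z) =
        ((p : ℝ) - 1) * Real.log 4 * (1 / Real.log z) + 3 * (1 / Real.log z) := by ring
    rw [h8] at herr
    linarith
  rw [abs_le]
  constructor <;> linarith

set_option linter.unusedVariables false in
/-- D1: the product over the primes `r ≡ 1` modulo `p`. -/
theorem prod_ap {p : ℕ} (hp : p.Prime) (h3 : 3 ≤ p) {ε : ℝ} (hε : 0 < ε) :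
    ∃ a₀ : ℕ, ∀ a ≥ a₀, ∀ b : ℕ, a ≤ b → b ≤ a ^ p →
      |∏ r ∈ (Ioc a b).filter (fun r => r.Prime ∧ r % p = 1), (1 - ((p : ℝ) - 1) / r)
        - Real.log a / Real.log b| ≤ ε := by
  have hp1 : (0 : ℝ) < (p : ℝ) - 1 := by
    have : (1 : ℝ) < p := by exact_mod_cast hp.one_lt
    linarith
  set δ : ℝ := min (ε / 4) (1 / 2) with hδ
  have hδ0 : 0 < δ := by positivity
  have hδ1 : δ ≤ ε / 4 := min_le_left _ _
  have hδ2 : δ ≤ 1 / 2 := min_le_right _ _
  obtain ⟨a1, ha1, h⟩ := d1_sum hp hδ0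
  obtain ⟨a2, ha2⟩ := exists_nat_ge (2 * ((p : ℝ) - 1) ^ 2 / δ + 2 * ((p : ℝ) - 1))
  refine ⟨max a1 a2, fun a ha b hab hb => ?_⟩
  have haa1 : a1 ≤ a := (le_max_left _ _).trans ha
  have haa2 : a2 ≤ a := (le_max_right _ _).trans ha
  have ha2' : 2 ≤ a := ha1.trans haa1
  have hs := h a haa1 b hab hb
  have ha0 : (0 : ℝ) < a := by positivity
  have hla : 0 < Real.log (a : ℝ) := Real.log_pos (by exact_mod_cast (by omega : 1 < a))
  have hlb : 0 < Real.log (b : ℝ) := Real.log_pos (by exact_mod_cast (by omega : 1 < b))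
  have har : 2 * ((p : ℝ) - 1) ^ 2 / δ + 2 * ((p : ℝ) - 1) ≤ a := ha2.trans (by exact_mod_cast haa2)
  have har1 : 2 * ((p : ℝ) - 1) ≤ a := by
    have : 0 ≤ 2 * ((p : ℝ) - 1) ^ 2 / δ := by positivity
    linarith
  have har2 : 2 * ((p : ℝ) - 1) ^ 2 * (a : ℝ)⁻¹ ≤ δ := by
    have h1 : 2 * ((p : ℝ) - 1) ^ 2 / δ ≤ a := by linarith
    rw [div_le_iff₀ hδ0] at h1
    rw [← div_eq_mul_inv, div_le_iff₀ ha0]
    linarith
  set s := (Ioc a b).filter (fun r => r.Prime ∧ r % p = 1) with hsd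
  have hx : ∀ r ∈ s, 0 < ((p : ℝ) - 1) / r ∧ ((p : ℝ) - 1) / r ≤ 1 / 2 := by
    intro r hr
    rw [hsd, mem_filter, mem_Ioc] at hr
    have hr0 : (0 : ℝ) < r := by exact_mod_cast (by omega : 0 < r)
    have hra : (a : ℝ) ≤ r := by exact_mod_cast hr.1.1.le
    refine ⟨by positivity, ?_⟩
    rw [div_le_iff₀ hr0]
    linarith
  set L := ∑ r ∈ s, Real.log (1 - ((p : ℝ) - 1) / r) with hL
  have hprod : ∏ r ∈ s, (1 - ((p : ℝ) - 1) / r) = Real.exp L := by
    rw [hL, Real.exp_sum]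
    apply Finset.prod_congr rfl
    intro r hr
    rw [Real.exp_log (by linarith [(hx r hr).2])]
  set X := ∑ r ∈ s, ((p : ℝ) - 1) / r with hX
  have hLu : L ≤ - X := by
    rw [hL, hX, ← Finset.sum_neg_distrib]
    apply Finset.sum_le_sum
    intro r hr
    have := Real.log_le_sub_one_of_pos (x := 1 - ((p : ℝ) - 1) / r) (by linarith [(hx r hr).2])
    linarith
  have hLl : - X - δ ≤ L := by
    have h1 : ∑ r ∈ s, (- (((p : ℝ) - 1) / r) - 2 * (((p : ℝ) - 1) / r) ^ 2) ≤ L := by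
      rw [hL]
      apply Finset.sum_le_sum
      intro r hr
      obtain ⟨x0, x1⟩ := hx r hr
      set x := ((p : ℝ) - 1) / r with hxd
      have h2 := Real.one_sub_inv_le_log_of_pos (x := 1 - x) (by linarith)
      refine le_trans ?_ h2
      have h3 : (1 - x)⁻¹ ≤ 1 + x + 2 * x ^ 2 := by
        rw [inv_le_iff_one_le_mul₀ (by linarith)]
        nlinarith [mul_nonneg (sq_nonneg x) (by linarith : (0 : ℝ) ≤ 1 - 2 * x)]
      linarith
    rw [Finset.sum_sub_distrib, Finset.sum_neg_distrib, ← hX, ← Finset.mul_sum] at h1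
    have h2 : ∑ r ∈ s, (((p : ℝ) - 1) / r) ^ 2 ≤ ((p : ℝ) - 1) ^ 2 * (a : ℝ)⁻¹ := by
      have h4 : ∑ r ∈ s, (((p : ℝ) - 1) / r) ^ 2 ≤ ∑ r ∈ Ioc a b, ((p : ℝ) - 1) ^ 2 * ((r : ℝ) ^ 2)⁻¹ := by
        rw [hsd]
        calc ∑ r ∈ (Ioc a b).filter (fun r => r.Prime ∧ r % p = 1), (((p : ℝ) - 1) / r) ^ 2
            ≤ ∑ r ∈ Ioc a b, (((p : ℝ) - 1) / r) ^ 2 :=
              Finset.sum_le_sum_of_subset_of_nonneg (Finset.filter_subset _ _)
                (fun _ _ _ => sq_nonneg _)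
          _ = _ := Finset.sum_congr rfl fun r _ => by rw [div_pow, div_eq_mul_inv]
      rw [← Finset.mul_sum] at h4
      have h5 := sum_Ioc_inv_sq_le_sub (α := ℝ) (k := a) (n := b) (by omega) hab
      have h6 : (0 : ℝ) ≤ (b : ℝ)⁻¹ := by positivity
      exact h4.trans (mul_le_mul_of_nonneg_left (by linarith) (sq_nonneg _))
    linarith
  set LL := Real.log (Real.log (b : ℝ)) - Real.log (Real.log (a : ℝ)) with hLL
  have hq : Real.log a / Real.log b = Real.exp (- LL) := by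
    rw [hLL, neg_sub, Real.exp_sub, Real.exp_log hla, Real.exp_log hlb]
  have hLL0 : 0 ≤ LL := by
    rw [hLL, sub_nonneg]
    apply Real.log_le_log hla
    apply Real.log_le_log ha0
    exact_mod_cast hab
  rw [hprod, hq]
  rw [abs_le] at hs
  set t := L + LL with ht
  have ht1 : |t| ≤ 2 * δ := by
    rw [abs_le]
    constructor <;> linarith [hs.1, hs.2]
  have e1 : Real.exp L - Real.exp (-LL) = Real.exp (-LL) * (Real.exp t - 1) := by
    rw [mul_sub, ← Real.exp_add, ht]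
    ring_nf
  rw [e1, abs_mul, abs_of_pos (Real.exp_pos _)]
  have h6 : Real.exp (-LL) ≤ 1 := Real.exp_le_one_iff.2 (by linarith)
  have h7 := Real.abs_exp_sub_one_le (x := t) (by linarith)
  calc Real.exp (-LL) * |Real.exp t - 1| ≤ 1 * (2 * |t|) :=
        mul_le_mul h6 h7 (abs_nonneg _) zero_le_one
    _ ≤ ε := by linarith

end Pool.Agent.L5helper32.GP
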